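import Pool.Agent.J4.H82.Mems.Dyn

/-!
# Finite-time singularity in the MEMS free boundary model with bending

For all `β > 0`, `τ ≥ 0`, `γ ≥ 0`, `ε > 0` there are `lamStar ≥ 0` and `C > 0` such that for every
`lam > lamStar` each solution on `[0,T)` starting from rest has `T ≤ γ² + C / (lam - lamStar)`.
In particular the maximal existence time of the solution is finite for every `lam > lamStar`.
-/

set_option autoImplicit false

open Pool.Agent.J4.H82.Mems in
theorem Pool.Agent.Results.MP_cdeac6_an.FiniteTimeSingularity.result :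
    ∀ β τ γ ε : ℝ, 0 < β → 0 ≤ τ → 0 ≤ γ → 0 < ε →
      ∃ lamStar C : ℝ, 0 ≤ lamStar ∧ 0 < C ∧ ∀ lam : ℝ, lamStar < lam →
        ∀ (T : ℝ) (u v : ℝ → ℝ → ℝ) (ψ ψx ψz : ℝ → ℝ × ℝ → ℝ),
          IsSolution β τ γ ε lam T u v ψ ψx ψz → T ≤ γ ^ 2 + C / (lam - lamStar) :=
  fun _ _ _ _ hβ hτ _ hε => main hβ hτ hε
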